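import Mathlib

set_option autoImplicit false

namespace Pool.Agent.Results.MP_96ce97_co.Boolean

open Finset Pointwise

theorem cb_le (m : ℕ) : Nat.centralBinom m ^ 2 * (2 * m + 1) ≤ 16 ^ m := by
  induction m with
  | zero => simp
  | succ m ih =>
    have h := Nat.succ_mul_centralBinom_succ m
    have e : (m + 1) ^ 2 * (Nat.centralBinom (m + 1) ^ 2 * (2 * (m + 1) + 1))
        = (4 * (2 * m + 1) * (2 * m + 3)) * (Nat.centralBinom m ^ 2 * (2 * m + 1)) := by
      calc _ = ((m + 1) * Nat.centralBinom (m + 1)) ^ 2 * (2 * m + 3) := by ring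
        _ = _ := by rw [h]; ring
    have e2 : (4 * (2 * m + 1) * (2 * m + 3)) * (Nat.centralBinom m ^ 2 * (2 * m + 1))
        ≤ (m + 1) ^ 2 * 16 ^ (m + 1) := by
      calc _ ≤ (16 * (m + 1) ^ 2) * 16 ^ m := Nat.mul_le_mul (by nlinarith) ih
        _ = _ := by ring
    exact Nat.le_of_mul_le_mul_left (e ▸ e2) (by positivity)

theorem count (m k : ℕ) (h : 16 * k ^ 2 ≤ 2 * m + 1) :
    2 ^ (2 * m) ≤ 4 * (univ.filter fun s : Finset (Fin (2 * m)) => s.card + k ≤ m).card := by
  set A := univ.filter fun s : Finset (Fin (2 * m)) => s.card + k ≤ m with hA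
  have h1 : (univ : Finset (Finset (Fin (2 * m)))) ⊆ A ∪ A.image (·ᶜ) ∪
      (Finset.range (2 * k)).biUnion fun j => powersetCard (m + j - k) univ := by
    intro s _
    have hs := Finset.card_le_univ s
    rw [Fintype.card_fin] at hs
    simp only [hA, mem_union, mem_filter, mem_univ, true_and, mem_image, mem_biUnion, mem_range,
      mem_powersetCard, subset_univ]
    by_cases c1 : s.card + k ≤ m
    · exact Or.inl (Or.inl c1)
    · by_cases c2 : m + k ≤ s.card
      · refine Or.inl (Or.inr ⟨sᶜ, ?_, compl_compl s⟩)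
        rw [Finset.card_compl, Fintype.card_fin]; omega
      · exact Or.inr ⟨s.card + k - m, by omega, by omega⟩
  have h2 := Finset.card_le_card h1
  have h3 := (Finset.card_union_le _ _).trans' h2
  have h4 := Finset.card_union_le A (A.image (·ᶜ))
  have h5 : (A.image (·ᶜ)).card ≤ A.card := Finset.card_image_le
  have h6 : ((Finset.range (2 * k)).biUnion fun j =>
      powersetCard (m + j - k) (univ : Finset (Fin (2 * m)))).card ≤ 2 * k * Nat.centralBinom m := by
    refine (Finset.card_biUnion_le_card_mul _ _ (Nat.centralBinom m) fun j _ => ?_).trans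
      (by rw [card_range])
    rw [card_powersetCard, card_univ, Fintype.card_fin]
    exact Nat.choose_le_centralBinom _ _
  have h7 : 4 * k * Nat.centralBinom m ≤ 2 ^ (2 * m) := by
    have := cb_le m
    have e : (4 * k * Nat.centralBinom m) ^ 2 ≤ (2 ^ (2 * m)) ^ 2 := by
      calc _ = Nat.centralBinom m ^ 2 * (16 * k ^ 2) := by ring
        _ ≤ Nat.centralBinom m ^ 2 * (2 * m + 1) := Nat.mul_le_mul_left _ h
        _ ≤ 16 ^ m := this
        _ = _ := by rw [← pow_mul, show 2 * m * 2 = 4 * m by ring, pow_mul]; norm_num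
    exact (Nat.pow_le_pow_iff_left (by norm_num)).1 e
  rw [card_univ, Fintype.card_finset, Fintype.card_fin] at h3
  have : 4 * k * Nat.centralBinom m = 2 * (2 * k * Nat.centralBinom m) := by ring
  omega

def supp {n : ℕ} (x : Fin n → ZMod 2) : Finset (Fin n) := univ.filter fun i => x i = 1

theorem supp_inj {n : ℕ} : Function.Injective (supp (n := n)) := by
  intro x y h
  funext i
  have := Finset.ext_iff.1 h i
  simp only [supp, mem_filter, mem_univ, true_and] at this
  revert this
  generalize x i = a
  generalize y i = b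
  revert a b
  decide

theorem supp_surj {n : ℕ} : Function.Surjective (supp (n := n)) := by
  intro s
  refine ⟨fun i => if i ∈ s then 1 else 0, ?_⟩
  ext i
  simp [supp]

/-- The statement fails for `α = 1/4` in the Boolean rings `𝔽₂ⁿ`. -/
theorem result : ∃ α : ℝ, 0 < α ∧ ∀ N k : ℕ,
    ∃ (R : Type) (_ : CommRing R) (_ : Fintype R) (E : Set R),
      N ≤ Fintype.card R ∧ α * Fintype.card R ≤ E.ncard ∧
      ∀ R0 : NonUnitalSubring R, (R0 : Set R) ⊆ (E - E) * (E - E) →
        (k : ℝ) < (Fintype.card R : ℝ) / Nat.card R0 := by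
  refine ⟨1 / 4, by norm_num, fun N k => ?_⟩
  obtain ⟨m, hm1, hm2, hm3⟩ : ∃ m, 16 * k ^ 2 ≤ 2 * m + 1 ∧ N ≤ 2 * m ∧ k ≤ m :=
    ⟨8 * k ^ 2 + N + k, by omega, by omega, by omega⟩
  have hc : Fintype.card (Fin (2 * m) → ZMod 2) = 2 ^ (2 * m) := by simp
  refine ⟨Fin (2 * m) → ZMod 2, inferInstance, inferInstance,
    ↑(univ.filter fun x : Fin (2 * m) → ZMod 2 => (supp x).card + k ≤ m), ?_, ?_, ?_⟩
  · rw [hc]; exact hm2.trans Nat.lt_two_pow_self.le
  · rw [hc, Set.ncard_coe_finset]
    have h1 := count m k hm1
    have h2 : (univ.filter fun s : Finset (Fin (2 * m)) => s.card + k ≤ m).card ≤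
        (univ.filter fun x : Fin (2 * m) → ZMod 2 => (supp x).card + k ≤ m).card := by
      apply Finset.card_le_card_of_surjOn supp
      intro s hs
      obtain ⟨x, rfl⟩ := supp_surj s
      exact ⟨x, by simpa using hs, rfl⟩
    have h3 : ((2 ^ (2 * m) : ℕ) : ℝ) ≤ ((4 * (univ.filter fun x : Fin (2 * m) → ZMod 2 =>
      (supp x).card + k ≤ m).card : ℕ) : ℝ) := by exact_mod_cast h1.trans (by omega)
    push_cast at h3 ⊢
    linarith
  · intro R0 hR
    classical
    obtain ⟨e, he, hmax⟩ := Finset.exists_max_image (univ.filter fun x => x ∈ R0)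
      (fun x => (supp x).card) ⟨0, by simp⟩
    simp only [mem_filter, mem_univ, true_and] at he hmax
    have hsub : ∀ x ∈ R0, supp x ⊆ supp e := by
      intro x hx
      have h1 := hmax (x + e + x * e) (R0.add_mem (R0.add_mem hx he) (R0.mul_mem hx he))
      have h2 : supp (x + e + x * e) = supp x ∪ supp e := by
        ext i
        simp only [supp, mem_filter, mem_univ, true_and, mem_union, Pi.add_apply, Pi.mul_apply]
        generalize x i = a
        generalize e i = b
        revert a b
        decide
      rw [h2] at h1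
      rw [← Finset.union_eq_right]
      exact (Finset.eq_of_subset_of_card_le subset_union_right h1).symm
    have hw : (supp e).card + 2 * k ≤ 2 * m := by
      obtain ⟨a, ⟨u, hu, v, hv, rfl⟩, b, -, rfl⟩ := hR he
      simp only [coe_filter, mem_univ, true_and, Set.mem_ofPred_eq] at hu hv
      have : supp ((u - v) * b) ⊆ supp u ∪ supp v := by
        intro i
        simp only [supp, mem_filter, mem_univ, true_and, mem_union, Pi.sub_apply, Pi.mul_apply]
        generalize u i = x
        generalize v i = y
        generalize b i = z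
        revert x y z
        decide
      have := (Finset.card_le_card this).trans (Finset.card_union_le _ _)
      simp only at this ⊢
      omega
    have hcard : Nat.card R0 ≤ 2 ^ (supp e).card := by
      rw [← Finset.card_powerset, ← Nat.card_eq_finsetCard]
      refine Nat.card_le_card_of_injective
        (fun x => ⟨supp x.1, mem_powerset.2 (hsub _ x.2)⟩) fun x y h => ?_
      exact Subtype.ext (supp_inj (Subtype.mk.inj h))
    have hpos : 0 < Nat.card R0 := Nat.card_pos
    rw [lt_div_iff₀ (by exact_mod_cast hpos), hc]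
    have : k * Nat.card R0 < 2 ^ (2 * m) := by
      calc k * Nat.card R0 < 2 ^ (2 * k) * Nat.card R0 :=
            (Nat.mul_lt_mul_right hpos).2 (lt_of_lt_of_le Nat.lt_two_pow_self
              (Nat.pow_le_pow_right (by norm_num) (by omega)))
        _ ≤ 2 ^ (2 * k) * 2 ^ (supp e).card := Nat.mul_le_mul_left _ hcard
        _ ≤ _ := by
            rw [← pow_add]
            exact Nat.pow_le_pow_right (by norm_num) (by omega)
    exact_mod_cast this

end Pool.Agent.Results.MP_96ce97_co.Boolean
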